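import Pool.Agent.MWK.Stmts

set_option autoImplicit false

namespace Pool.Agent.MWK.H59

theorem asg : AsgStmt := by
  intro L
  induction L with
  | nil =>
    intro W _ hW
    have h1 : W = [] := List.length_eq_zero_iff.1 hW.symm
    subst h1
    exact ⟨fun _ => [], rfl, fun _ _ => rfl⟩
  | cons z L ih =>
    intro W hL hW
    cases W with
    | nil => simp at hW
    | cons w W =>
      rw [List.nodup_cons] at hL
      obtain ⟨g, h1, h2⟩ := ih W hL.2 (by simpa using hW)
      refine ⟨fun t => if t = z then w else g t, ?_, ?_⟩
      · have h3 : L.map (fun t => if t = z then w else g t) = L.map g := by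
          apply List.map_congr_left
          intro t ht
          rw [if_neg]
          rintro rfl
          exact hL.1 ht
        rw [List.map_cons, h3, h1, if_pos rfl]
      · intro t ht
        rw [List.mem_cons, not_or] at ht
        show (if t = z then w else g t) = []
        rw [if_neg ht.1]
        exact h2 t ht.2

end Pool.Agent.MWK.H59
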